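import Mathlib
import Pool.Agent.Y584.EqProb.Main

set_option autoImplicit false

universe u

namespace Pool.Agent.Results.MP_79b5eb_lc.UndecidableFromThree

/-- The product of the members of a nonempty list, in the order of the list; the value of the
empty list is `0`. -/
def prodList {A : Type*} [Mul A] [Zero A] : List A → A
  | [] => 0
  | a :: l => l.foldl (fun x y => x * y) a

/-- Noncommutative polynomials without constant term in the variables `x_0, x_1, ...`: finite lists
of terms, a term being a coefficient and a word (a list of indices of variables); a term with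
the empty word stands for `0`. -/
abbrev NCPoly (K : Type*) := List (K × List ℕ)

/-- The value of a polynomial in an associative algebra. -/
def eval {K A : Type*} [NonUnitalRing A] [SMul K A] (v : ℕ → A) (p : NCPoly K) : A :=
  (p.map fun t => t.1 • prodList (t.2.map v)).sum

/-- The algebra `A` belongs to the variety `M(n)` over the field `F`: it satisfies all polynomial
identities of the algebra of `n × n` matrices over `F`. -/
def InM (F : Type u) [Field F] (n : ℕ) (A : Type u) [NonUnitalRing A] [Module F A] : Prop :=
  ∀ p : NCPoly F, (∀ v : ℕ → Matrix (Fin n) (Fin n) F, eval v p = 0) → ∀ v : ℕ → A, eval v p = 0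

/-- The algebra `A` belongs to the variety `S(n)`: it satisfies the standard identity of
degree `n`. -/
def InS (n : ℕ) (A : Type u) [NonUnitalRing A] : Prop :=
  ∀ v : Fin n → A,
    ∑ σ : Equiv.Perm (Fin n), (Equiv.Perm.sign σ : ℤ) • prodList (List.ofFn fun i => v (σ i)) = 0

/-- The quasi-identity with the hypotheses `u = 0`, `u` in the list `q.1`, and the conclusion
`q.2 = 0` holds in `A`. The coefficients are integers. -/
def HoldsIn (q : List (NCPoly ℤ) × NCPoly ℤ) (A : Type u) [NonUnitalRing A] : Prop :=
  ∀ v : ℕ → A, (∀ u ∈ q.1, eval v u = 0) → eval v q.2 = 0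

/-- The quasi-identity holds in all algebras of the variety `M(n)` over `F`. Algebras are
associative and need not have a unit. -/
def HoldsM (F : Type u) [Field F] (n : ℕ) (q : List (NCPoly ℤ) × NCPoly ℤ) : Prop :=
  ∀ (A : Type u) [NonUnitalRing A] [Module F A] [IsScalarTower F A A] [SMulCommClass F A A],
    InM F n A → HoldsIn q A

/-- The quasi-identity holds in all algebras of the variety `S(n)` over `F`. Algebras are
associative and need not have a unit. -/
def HoldsS (F : Type u) [Field F] (n : ℕ) (q : List (NCPoly ℤ) × NCPoly ℤ) : Prop :=
  ∀ (A : Type u) [NonUnitalRing A] [Module F A] [IsScalarTower F A A] [SMulCommClass F A A],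
    InS n A → HoldsIn q A

/-- The equality problem is undecidable in `M(n)` for every `n ≥ 3` and in `S(n)` for every
`n ≥ 6`, over every infinite field (in particular over every field of characteristic `0`), already
for integer coefficients. Moreover there is one finite list `R` of hypotheses, the same for all
these fields, varieties and `n`, for which no algorithm decides which conclusions follow from `R`:
the algebra with the relations `R` in the variety has an undecidable word problem. -/
theorem result : ∃ R : List (NCPoly ℤ), ∀ (F : Type u) [Field F] [Infinite F],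
    (∀ n, 3 ≤ n → ¬ ComputablePred (fun w : NCPoly ℤ => HoldsM F n (R, w)) ∧
      ¬ ComputablePred (HoldsM F n)) ∧
    (∀ n, 6 ≤ n → ¬ ComputablePred (fun w : NCPoly ℤ => HoldsS F n (R, w)) ∧
      ¬ ComputablePred (HoldsS F n)) := by
  obtain ⟨R, hR⟩ := Pool.Agent.Y584.EqProb.main.{u}
  refine ⟨R, fun F _ _ => ⟨fun n hn => ?_, fun n hn => ?_⟩⟩
  · have h1 : ¬ ComputablePred (fun w : NCPoly ℤ => HoldsM F n (R, w)) := (hR F).1 n hn
    refine ⟨h1, fun hc => h1 ?_⟩
    exact ComputablePred.computable_of_manyOneReducible
      ⟨fun w => (R, w), Computable.pair (Computable.const R) Computable.id, fun _ => Iff.rfl⟩ hc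
  · have h1 : ¬ ComputablePred (fun w : NCPoly ℤ => HoldsS F n (R, w)) := (hR F).2 n hn
    refine ⟨h1, fun hc => h1 ?_⟩
    exact ComputablePred.computable_of_manyOneReducible
      ⟨fun w => (R, w), Computable.pair (Computable.const R) Computable.id, fun _ => Iff.rfl⟩ hc

end Pool.Agent.Results.MP_79b5eb_lc.UndecidableFromThree
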